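import Pool.Agent.X39.Near.Rel
import Pool.Agent.Results.MP_1eadae_ag.NestedFamilies

/-!
# Periods of the members of a family at the approximations to ALL real numbers outside a set of dimension zero

Let `X_t = E_{s_0(t)} × ⋯ × E_{s_N(t)}`, `t ∈ (α_0, γ_0)`, be a family of products of elliptic curves as
in `NestedFamilies`, and let `ξ_1, …, ξ_g` be arbitrary complex numbers (for instance the periods of a
fixed variety). Outside ONE set of real numbers `x` of Hausdorff dimension `0`, for all number fields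
`F`, all `ω > 0`, `d` and `A` there are `B` and `T₁` such that for all `T ≥ T₁` and ALL real `t ∈ F` of
height at most `T` with `|t - x| ≤ T ^ (-ω)` the periods `K(s_j(t))`, `E(s_j(t))`, `K(1 - s_j(t))`
satisfy no relation of degree at most `d` with coefficients `∑ ξ_i c_i`, `c_i` integers of `F` with
conjugates at most `T ^ A`, not even up to `T ^ (-B)`. In particular this holds for the convergents of
all irrational `x` in `(α_0, γ_0)` outside this set, from some point on.
-/

set_option autoImplicit false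

open MeasureTheory NumberField

namespace Pool.Agent.Results.MP_1eadae_ag.ApproximationsOfAllNumbers

open Pool.Agent.X39.Near (Size Related)

/-- The `3 (N + 1)` numbers `K(s_j(z))`, `E(s_j(z))`, `K(1 - s_j(z))`. -/
noncomputable def numbers {N : ℕ} (s : Fin (N + 1) → ℂ → ℂ) (z : ℂ) (x : Fin (N + 1) × Fin 3) : ℂ :=
  ![NestedFamilies.K (s x.1 z), NestedFamilies.E (s x.1 z), NestedFamilies.K (1 - s x.1 z)] x.2

lemma finite_of_bound {F : Type} {Z : Set F} {M : ℝ}
    (h : ∀ S : Finset F, (∀ x ∈ S, x ∈ Z) → (S.card : ℝ) ≤ M) : Z.Finite ∧ (Z.ncard : ℝ) ≤ M := by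
  have hfin : Z.Finite := by
    by_contra hcon
    obtain ⟨n, hn⟩ := exists_nat_gt M
    obtain ⟨S, hS, hc⟩ := (show Z.Infinite from hcon).exists_subset_card_eq n
    have := h S fun x hx => hS hx
    rw [hc] at this
    linarith
  refine ⟨hfin, ?_⟩
  rw [Set.ncard_eq_toFinset_card _ hfin]
  exact h _ fun x hx => hfin.mem_toFinset.1 hx

/-- **Theorem.** Let `α_N < ⋯ < α_0 < γ_0 < ⋯ < γ_N`, let `s_j` be analytic near `[α_j, γ_j]`, real with
positive derivative on `[α_j, γ_j]`, with `s_j(α_j) = 0`, `s_j(γ_j) = 1`, and let `ξ_1, …, ξ_g` be complex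
numbers. There is a set `E` of real numbers of Hausdorff dimension `0` such that: (1) for all `x` in
`(α_0, γ_0)` outside `E`, all number fields `F` with an embedding `ι` in `ℂ`, all `d`, `A` and `ω > 0` there
are `B`, `T₁` such that for all `T ≥ T₁` and all `t ∈ F`, quotients of integers with conjugates at most
`T`, with `ι t` real and `|ι t - x| ≤ T ^ (-ω)`, the `3 (N + 1)` numbers at `ι t` are not related; (2) for
all irrational `x` in `(α_0, γ_0)` outside `E` and all `d`, `A` there is `B` such that the numbers at the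
convergents of `x` are not related over `ℚ`, at the level of the denominator, from some point on. -/
theorem result (N : ℕ) (s : Fin (N + 1) → ℂ → ℂ) (α γ : Fin (N + 1) → ℝ) (hα : StrictAnti α)
    (hγ : StrictMono γ) (h0 : α 0 < γ 0)
    (hs : ∀ j, ∀ x ∈ Set.Icc (α j) (γ j),
      AnalyticAt ℂ (s j) (x : ℂ) ∧ (s j x).im = 0 ∧ 0 < (deriv (s j) (x : ℂ)).re)
    (hs0 : ∀ j, s j (α j) = 0) (hs1 : ∀ j, s j (γ j) = 1) (g : ℕ) (ξ : Fin g → ℂ) :
    ∃ E : Set ℝ, dimH E = 0 ∧
      (∀ x : ℝ, α 0 < x → x < γ 0 → x ∉ E → ∀ (F : Type) [Field F] [NumberField F] (ι : F →+* ℂ)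
        (d A : ℕ) (ω : ℝ), 0 < ω → ∃ B T₁ : ℝ, ∀ T : ℝ, T₁ ≤ T → ∀ t : F, Size F T t →
          (ι t).im = 0 → |(ι t).re - x| ≤ T ^ (-ω) → ¬ Related ξ (numbers s) F ι d A B T t) ∧
      ∀ x : ℝ, Irrational x → α 0 < x → x < γ 0 → x ∉ E → ∀ d A : ℕ, ∃ (B : ℝ) (n₀ : ℕ), ∀ k : ℕ,
        n₀ ≤ k → ¬ Related ξ (numbers s) ℚ (algebraMap ℚ ℂ) d A B (x.convergent k).den
          (x.convergent k) := by
  refine Pool.Agent.X39.Near.related_real ξ (numbers s) (α 0) (γ 0) ?_
  intro a b ha hb m d A ε hA hε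
  obtain ⟨B, C, T₀, h⟩ := NestedFamilies.result N s α γ hα hγ h0 hs hs0 hs1 a b ha hb m 1 g d A ε hε
  refine ⟨B, C, T₀, fun F _ _ hF ι T hT => finite_of_bound fun S hS => ?_⟩
  have h1 := h F hF ι ξ T hT S fun x hx => ⟨(hS x hx).1.1, (hS x hx).1.2.1, (hS x hx).1.2.2,
    (hS x hx).2.1⟩
  rw [Nat.sub_self, pow_zero, mul_one] at h1
  refine le_trans ?_ h1
  have hfin : (NestedFamilies.Exceptional 1 d s F ι ξ S A B T).Finite := by
    refine (Set.Finite.pi' (t := fun _ : Fin 1 => (S : Set F)) fun _ => S.finite_toSet).subset ?_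
    intro t ht j
    exact ht.1 j
  obtain ⟨-, h2⟩ := Pool.Agent.X39.Near.tuples_count (S := (S : Set F)) (fun t ht => (by
    have hrel := ((hS t ht).2.2).equiv (Equiv.uniqueProd (Fin (N + 1) × Fin 3) (Fin 1)).symm
    obtain ⟨P, p1, p2, p3⟩ := hrel
    exact ⟨fun _ => ht, P, p1, p2, p3⟩ :
      (fun _ => t) ∈ NestedFamilies.Exceptional 1 d s F ι ξ S A B T)) hfin
  rw [Set.ncard_coe_finset] at h2
  exact_mod_cast h2

end Pool.Agent.Results.MP_1eadae_ag.ApproximationsOfAllNumbers
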