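import Mathlib
import Pool.Agent.H406R3.CatMeasure
import Pool.Agent.X106.DC

set_option autoImplicit false

/-!
# MP_1eadae_ag (Kontsevich's period conjecture): the periods `β(2)` (Catalan's constant) and `β(4)`

Let `β(s) = ∑ (-1)^j / (2j+1)^s`.  The numbers `1, β(2), β(4)` are periods (of mixed Tate motives over
`ℤ[i, 1/2]`); the period conjecture predicts that they are linearly independent over `ℚ`.  We prove that
the space of linear relations has dimension at most one, that is, at least one of `β(2)`, `β(4)` is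
irrational, with three quantitative forms:

* simultaneous approximation: `max (|β(2) - a/q|, |β(4) - b/q|) > exp (-C log q log (1 + log q))`;
* near relations: two linearly independent integer forms in `1, β(2), β(4)` with coefficients bounded by
  `H` are not both smaller than `exp (-C log H log (1 + log H))`;
* expansions: if in some bases `b, b'` the first `L` and `L'` terms of expansions of `β(2)` and `β(4)`
  (by integer digits of size at most `b ^ h` and `b' ^ h`; the usual digits are an example, see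
  `Pool.Agent.X106.DC.digit_expansion`) satisfy linear recurrences of orders `m` and `m'`, then
  `min (L log b) (L' log b') ≤ K U log (2 + U)`, `U = (m + 1) log b + (m' + 1) log b'`.

The simultaneous approximation statement is the library theorem `Pool.Agent.H406R3.cat_measure` (joint
work of the earlier rounds, `Pool/Agent/H216R2/BB`, `H256R2/BM`, `H337R2`, `H336R2`, `H406R3`, by Hankel
determinants of the linear forms in `1, β(2), β(4)` attached to well-poised rational functions); it was
not used in a hand-in before.  The other forms are proved in `Pool/Agent/X106/DC.lean`.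
-/

namespace Pool.Agent.Results.MP_1eadae_ag.BetaTwoBetaFour

open Finset

/-- `β(s) = ∑ (-1)^j / (2j+1)^s` -/
noncomputable def β (s : ℕ) : ℝ := ∑' j : ℕ, (-1 : ℝ) ^ j / (2 * (j : ℝ) + 1) ^ s

/-- the terms `s_1, …, s_L` satisfy a linear recurrence of order `m` with rational coefficients -/
def Rec (s : ℕ → ℤ) (L m : ℕ) : Prop :=
  ∃ c : ℕ → ℚ, ∀ i : ℕ, 1 ≤ i → i + m ≤ L →
    (s (i + m) : ℚ) = ∑ j ∈ range m, c j * (s (i + j) : ℚ)

/-- `x = n + ∑_{i ≥ 1} s_i b^(-i)` for some integer `n`, where the integers `s_i` are bounded by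
`b ^ h` -/
def Expansion (b h : ℕ) (s : ℕ → ℤ) (x : ℝ) : Prop :=
  (∀ i, |s i| ≤ (b : ℤ) ^ h) ∧
    ∃ n : ℤ, HasSum (fun i : ℕ => (s (i + 1) : ℝ) / (b : ℝ) ^ (i + 1)) (x - n)

theorem result :
    -- one of the two numbers is irrational
    (Irrational (β 2) ∨ Irrational (β 4)) ∧
    -- simultaneous approximation
    (∃ C : ℝ, 0 < C ∧ ∀ q : ℕ, 2 ≤ q → ∀ a b : ℤ,
      Real.exp (-(C * Real.log q * Real.log (1 + Real.log q))) <
        max |β 2 - (a : ℝ) / (q : ℝ)| |β 4 - (b : ℝ) / (q : ℝ)|) ∧
    -- pairs of near relations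
    (∃ C : ℝ, 0 < C ∧ ∀ u v : Fin 3 → ℤ, LinearIndependent ℤ ![u, v] → ∀ H : ℝ, 2 ≤ H →
      (∀ i, |(u i : ℝ)| ≤ H) → (∀ i, |(v i : ℝ)| ≤ H) →
      Real.exp (-(C * Real.log H * Real.log (1 + Real.log H))) <
        max |(u 0 : ℝ) + u 1 * β 2 + u 2 * β 4| |(v 0 : ℝ) + v 1 * β 2 + v 2 * β 4|) ∧
    -- expansions in bases `b` and `b'`
    (∀ h : ℕ, ∃ K : ℝ, 0 < K ∧ ∀ b b' : ℕ, 2 ≤ b → 2 ≤ b' → ∀ s s' : ℕ → ℤ,
      Expansion b h s (β 2) → Expansion b' h s' (β 4) → ∀ L L' m m' : ℕ,
      Rec s L m → Rec s' L' m' → ∀ U : ℝ, U = (m + 1) * Real.log b + (m' + 1) * Real.log b' →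
      min (L * Real.log b) (L' * Real.log b') ≤ K * U * Real.log (2 + U)) := by
  obtain ⟨C, hC, h⟩ := Pool.Agent.H406R3.cat_measure
  have h' : Pool.Agent.X106.DC.MQ (β 2) (β 4) C := h
  exact ⟨Pool.Agent.X106.DC.irr_of _ _ C h', ⟨C, hC, h'⟩, Pool.Agent.X106.DC.forms _ _ C hC h',
    fun k => Pool.Agent.X106.DC.digits _ _ C hC h' k⟩

end Pool.Agent.Results.MP_1eadae_ag.BetaTwoBetaFour
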