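import Mathlib
import Pool.Agent.TH900.QM.Meas
import Pool.Agent.Y928.PN.Pairs

set_option autoImplicit false

/-!
# MP_1eadae_ag (Kontsevich's period conjecture): `1` and `8 G ± 5 π²/6`

Let `G = ∑ (-1)^j / (2j+1)^2` be Catalan's constant.  The two periods `8 G + 5 π²/6` and `8 G - 5 π²/6`
(in terms of Hurwitz zeta values: `ζ(2, 1/4) - ζ(2)` and `ζ(2) - ζ(2, 3/4)`) are irrational, with
the irrationality measure `586`: `|8 G ± 5 π²/6 - a/b| ≥ c / b^586` for all integers `a` and `b ≥ 1`.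
So there is no linear relation over `ℚ` between `1` and `8 G + 5 π²/6`, nor between `1` and
`8 G - 5 π²/6`, as predicted by the period conjecture.

Moreover their digits in an arbitrary base do not satisfy short linear recurrences, even after
changing a few of them.

The measure is the library theorem `Pool.Agent.TH900.QM.main` (joint work of the earlier rounds,
`Pool/Agent/H397R2/QF`, `H397R2/QG`, `H337R2`, `TH900/QM`: Hankel determinants of linear forms, an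
arithmetic bound prime by prime, a zero estimate, an analytic bound), which was not used in a hand-in
before.  The statements on the digits use `Pool/Agent/Y928`.
-/

namespace Pool.Agent.Results.MP_1eadae_ag.CatalanPiSquared

open Finset

/-- Catalan's constant -/
noncomputable def G : ℝ := ∑' j : ℕ, (-1 : ℝ) ^ j / (2 * (j : ℝ) + 1) ^ 2

/-- the `i`-th digit of `x` after the point in base `b` -/
noncomputable def digit (b : ℕ) (x : ℝ) (i : ℕ) : ℤ := ⌊x * (b : ℝ) ^ i⌋ % (b : ℤ)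

/-- the terms `s_1, …, s_L` satisfy a linear recurrence of order `m` with rational coefficients -/
def Rec (s : ℕ → ℤ) (L m : ℕ) : Prop :=
  ∃ c : ℕ → ℚ, ∀ i : ℕ, 1 ≤ i → i + m ≤ L →
    (s (i + m) : ℚ) = ∑ j ∈ range m, c j * (s (i + j) : ℚ)

/-- the measure -/
lemma meas (ε : ℝ) (hε : ε = 1 ∨ ε = -1) : ∃ c : ℝ, 0 < c ∧ ∀ (a : ℤ) (b : ℕ), 0 < b →
    c / (b : ℝ) ^ 586 ≤ |8 * G + ε * (5 * Real.pi ^ 2 / 6) - (a : ℝ) / b| :=
  Pool.Agent.TH900.QM.main ε hε

lemma irr (x c : ℝ) (hc : 0 < c) (h : ∀ (a : ℤ) (b : ℕ), 0 < b →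
    c / (b : ℝ) ^ 586 ≤ |x - (a : ℝ) / b|) : Irrational x := by
  unfold Irrational
  rintro ⟨y, hy⟩
  have hyd : (0 : ℝ) < (y.den : ℝ) := by exact_mod_cast y.den_pos
  have ey : (y : ℝ) = (y.num : ℝ) / (y.den : ℝ) := by exact_mod_cast (Rat.num_div_den y).symm
  have := h y.num y.den y.den_pos
  rw [← hy, ey, sub_self, abs_zero] at this
  exact absurd this (not_le.2 (by positivity))

theorem result (ε : ℝ) (hε : ε = 1 ∨ ε = -1) :
    Irrational (8 * G + ε * (5 * Real.pi ^ 2 / 6)) ∧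
    -- the measure
    (∃ c : ℝ, 0 < c ∧ ∀ (a : ℤ) (b : ℕ), 0 < b →
      c / (b : ℝ) ^ 586 ≤ |8 * G + ε * (5 * Real.pi ^ 2 / 6) - (a : ℝ) / b|) ∧
    -- the digits
    (∀ η : ℝ, 0 < η → ∃ L₀ : ℕ, ∀ b : ℕ, 2 ≤ b → ∀ L : ℕ, L₀ ≤ L → ∀ m : ℕ,
      Rec (digit b (8 * G + ε * (5 * Real.pi ^ 2 / 6))) L m → (L : ℝ) ≤ (586 + η) * m) ∧
    -- the digits, changed in at most `k` places
    (∃ C : ℝ, 0 < C ∧ ∀ b : ℕ, 2 ≤ b → ∀ k L m : ℕ, ∀ s : ℕ → ℤ, (∀ l, |s l| ≤ b) →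
      ∀ E : Finset ℕ, E.card ≤ k →
      (∀ l ∈ Icc 1 L, l ∉ E → s l = digit b (8 * G + ε * (5 * Real.pi ^ 2 / 6)) l) → Rec s L m →
      (L : ℝ) ≤ (∑ i ∈ range (k + 1), (586 : ℝ) ^ (i + 1)) *
        (m + C * Real.sqrt (((m : ℝ) + 1) * Real.log ((m : ℝ) + 2)))) := by
  obtain ⟨c, hc, h⟩ := meas ε hε
  generalize 8 * G + ε * (5 * Real.pi ^ 2 / 6) = X at h ⊢
  have hMs : Pool.Agent.Y928.PN.Ms {0} (fun _ => X) 586 c := by
    intro q hq p
    refine ⟨0, mem_singleton_self 0, ?_⟩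
    have hq0 : (0 : ℝ) < q := by exact_mod_cast (by omega : 0 < q)
    have h1 := h (p 0) q (by omega)
    have e1 : (q : ℝ) ^ ((586 : ℝ) - 1) = (q : ℝ) ^ 585 := by
      rw [show (586 : ℝ) - 1 = ((585 : ℕ) : ℝ) by norm_num, Real.rpow_natCast]
    have e2 : |(q : ℝ) * X - p 0| = q * |X - (p 0 : ℝ) / q| := by
      rw [← abs_of_pos hq0, ← abs_mul, abs_of_pos hq0]
      congr 1
      field_simp
    beta_reduce
    rw [e1, e2, ← mul_assoc, ← pow_succ]
    rw [div_le_iff₀ (by positivity)] at h1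
    linarith
  refine ⟨irr X c hc h, ⟨c, hc, h⟩, fun η hη => ?_, ?_⟩
  · obtain ⟨L₀, hL₀⟩ := Pool.Agent.Y928.PN.one_large {0} (singleton_nonempty 0) (fun _ => X) 586 c
      (by norm_num) hc hMs η hη
    refine ⟨L₀, fun b hb L hL m hm => ?_⟩
    obtain ⟨j, hj, h1⟩ := hL₀ b hb L hL
    rw [card_singleton, Nat.cast_one, one_mul] at h1
    refine h1.trans (mul_le_mul_of_nonneg_left ?_ (by linarith))
    have h2 : Pool.Agent.Y928.JL.Fam.complexity b X L ≤ m := Nat.sInf_le hm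
    exact_mod_cast h2
  · obtain ⟨C, hC, h1, -⟩ := Pool.Agent.Y928.PL.finite_family {0} (singleton_nonempty 0) (fun _ => X)
      586 c (by norm_num) hc hMs 1
    refine ⟨C, hC, fun b hb k L m s hs E hE hsE hm => ?_⟩
    have h2 := h1 b hb k L
    obtain ⟨c', hc'⟩ := hm
    have h3 : Pool.Agent.Y928.JL.Fam.jointComplexity b {0} (fun _ => X) k L ≤ m :=
      Nat.sInf_le ⟨fun _ => s, c', E, hE, fun i _ => ⟨hs, hsE, hc'⟩⟩
    have h4 := Pool.Agent.Y928.JL.Fam.F_mono hC.le h3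
    exact h2.trans (mul_le_mul_of_nonneg_left h4 (sum_nonneg fun i _ => by positivity))

end Pool.Agent.Results.MP_1eadae_ag.CatalanPiSquared
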