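import Mathlib
import Pool.Agent.TH957.PB.Fin
import Pool.Agent.H103R2.LM.M

set_option autoImplicit false

/-!
# MP_1eadae_ag (Kontsevich's period conjecture): Catalan's constant, `π²`, `π³` and `ζ(3)`

Let `G = ∑ (-1)^j / (2j+1)^2` be Catalan's constant, `ζ(3) = ∑ 1 / (j+1)^3`, and let `ε = 1` or
`ε = -1`.  The four vectors of periods

`(1, 0)`, `(0, 1)`, `(π², 18 ζ(3))`, `(8 G, π³ + 12 ε ζ(3))`

of `ℝ²` are linearly independent over `ℚ`, with a polynomial measure; the exponent is `1999` for the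
integer combinations in which the last vector occurs.  In particular for every rational `r` either
`8 G + r π²` is irrational or both `π³ + (18 r + 12) ζ(3)` and `π³ + (18 r - 12) ζ(3)` are irrational.
For instance (`r = 0`), if Catalan's constant were rational, then `π³ + 12 ζ(3)` and `π³ - 12 ζ(3)` would
be irrational.

The combinations in which the last vector occurs are treated by the library theorem
`Pool.Agent.TH957.PB.pencil` (joint work of the earlier rounds, `Pool/Agent/TH957/PB`, `W34/GB`,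
`W216/GZ`, `W293/GZ`, `H337R2`); it was used there for a statement about the quotient `ζ(3)/π³`
(MP_e47f08_nt) and was not handed in itself.  The other combinations are treated by the measure for
`1, ζ(2), ζ(3)` (`Pool.Agent.H103R2.LM.M`).
-/

namespace Pool.Agent.Results.MP_1eadae_ag.CatalanZetaThree

/-- Catalan's constant -/
noncomputable def G : ℝ := ∑' j : ℕ, (-1 : ℝ) ^ j / (2 * (j : ℝ) + 1) ^ 2

/-- `ζ(3)` -/
noncomputable def ζ3 : ℝ := ∑' j : ℕ, 1 / ((j : ℝ) + 1) ^ 3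

/-- the measure -/
theorem measure (ε : ℝ) (hε : ε = 1 ∨ ε = -1) :
    ∃ c κ : ℝ, 0 < c ∧ 0 < κ ∧ ∀ x : Fin 4 → ℤ, x ≠ 0 → ∀ H : ℝ, 1 ≤ H →
      |(x 2 : ℝ)| ≤ H → |(x 3 : ℝ)| ≤ H →
      c * H ^ (-κ) ≤ max |(x 0 : ℝ) + x 2 * Real.pi ^ 2 + x 3 * (8 * G)|
        |(x 1 : ℝ) + x 2 * (18 * ζ3) + x 3 * (Real.pi ^ 3 + 12 * ε * ζ3)| ∧
      (x 3 ≠ 0 → c * H ^ (-(1999 : ℝ)) ≤ max |(x 0 : ℝ) + x 2 * Real.pi ^ 2 + x 3 * (8 * G)|
        |(x 1 : ℝ) + x 2 * (18 * ζ3) + x 3 * (Real.pi ^ 3 + 12 * ε * ζ3)|) := by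
  obtain ⟨c1, hc1, h1⟩ := Pool.Agent.TH957.PB.pencil ε hε
  obtain ⟨c2, hc2, κ, hκ, h2⟩ := Pool.Agent.LM.measure_d
  have hG : Pool.Agent.W34.GB.GC = G := rfl
  have hZ : Pool.Agent.W34.GB.Z3 = ζ3 := rfl
  have hZ' : Pool.Agent.H337R2.zr 3 = ζ3 := rfl
  rw [hG, hZ] at h1
  rw [hZ'] at h2
  have h18 : (0 : ℝ) < 18 ^ (-κ) := by positivity
  refine ⟨min (min c1 (c2 * 18 ^ (-κ))) 1, max κ 1999, by positivity, lt_max_of_lt_left hκ, ?_⟩
  intro x hx H hH hx2 hx3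
  have hH0 : 0 < H := by linarith
  -- the three cases
  have case3 : x 3 ≠ 0 → c1 * H ^ (-(1999 : ℝ)) ≤
      max |(x 0 : ℝ) + x 2 * Real.pi ^ 2 + x 3 * (8 * G)|
        |(x 1 : ℝ) + x 2 * (18 * ζ3) + x 3 * (Real.pi ^ 3 + 12 * ε * ζ3)| := by
    intro h3
    have h4 := h1 (x 3) (x 2) (-(x 0)) (-(x 1)) h3 H hx3 hx2
    have e1 : 8 * (x 3 : ℝ) * G + x 2 * Real.pi ^ 2 - ((-(x 0) : ℤ) : ℝ) =
        (x 0 : ℝ) + x 2 * Real.pi ^ 2 + x 3 * (8 * G) := by push_cast; ring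
    have e2 : (x 3 : ℝ) * (Real.pi ^ 3 + 12 * ε * ζ3) + 18 * x 2 * ζ3 - ((-(x 1) : ℤ) : ℝ) =
        (x 1 : ℝ) + x 2 * (18 * ζ3) + x 3 * (Real.pi ^ 3 + 12 * ε * ζ3) := by push_cast; ring
    rw [e1, e2] at h4
    exact h4
  have hpow1 : H ^ (-(max κ 1999)) ≤ H ^ (-(1999 : ℝ)) :=
    Real.rpow_le_rpow_of_exponent_le hH (neg_le_neg (le_max_right _ _))
  have hpow2 : H ^ (-(max κ 1999)) ≤ H ^ (-κ) :=
    Real.rpow_le_rpow_of_exponent_le hH (neg_le_neg (le_max_left _ _))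
  have hpow3 : H ^ (-(max κ 1999)) ≤ 1 :=
    Real.rpow_le_one_of_one_le_of_nonpos hH (neg_nonpos.2 (le_max_of_le_left hκ.le))
  have hp : 0 < H ^ (-(max κ 1999)) := Real.rpow_pos_of_pos hH0 _
  refine ⟨?_, fun h3 => ?_⟩
  · by_cases h3 : x 3 = 0
    · by_cases h4 : x 2 = 0
      · -- only the first two vectors
        have h5 : x 0 ≠ 0 ∨ x 1 ≠ 0 := by
          by_contra hcon
          push Not at hcon
          apply hx
          funext i
          fin_cases i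
          · exact hcon.1
          · exact hcon.2
          · exact h4
          · exact h3
        have hint : ∀ z : ℤ, z ≠ 0 → (1 : ℝ) ≤ |(z : ℝ)| := by
          intro z hz
          have : (1 : ℤ) ≤ |z| := Int.one_le_abs hz
          exact_mod_cast this
        rw [h3, h4]
        have e1 : (x 0 : ℝ) + ((0 : ℤ) : ℝ) * Real.pi ^ 2 + ((0 : ℤ) : ℝ) * (8 * G) = x 0 := by
          push_cast; ring
        have e2 : (x 1 : ℝ) + ((0 : ℤ) : ℝ) * (18 * ζ3) +
            ((0 : ℤ) : ℝ) * (Real.pi ^ 3 + 12 * ε * ζ3) = x 1 := by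
          push_cast; ring
        rw [e1, e2]
        have h6 : (1 : ℝ) ≤ max |(x 0 : ℝ)| |(x 1 : ℝ)| := by
          rcases h5 with h | h
          · exact (hint _ h).trans (le_max_left _ _)
          · exact (hint _ h).trans (le_max_right _ _)
        calc min (min c1 (c2 * 18 ^ (-κ))) 1 * H ^ (-(max κ 1999)) ≤ 1 * 1 :=
              mul_le_mul (min_le_right _ _) hpow3 hp.le zero_le_one
          _ ≤ _ := by rw [one_mul]; exact h6
      · -- the third vector occurs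
        have h5 := h2 (x 1) 0 (18 * x 2) (18 * H) (by linarith)
          (mul_ne_zero (by norm_num) h4) (by simp; linarith) (by
            push_cast
            rw [abs_mul, abs_of_pos (by norm_num : (0 : ℝ) < 18)]
            linarith)
        have e1 : (x 1 : ℝ) + ((0 : ℤ) : ℝ) * Pool.Agent.H337R2.zr 2 + ((18 * x 2 : ℤ) : ℝ) * ζ3 =
            (x 1 : ℝ) + x 2 * (18 * ζ3) + x 3 * (Real.pi ^ 3 + 12 * ε * ζ3) := by
          rw [h3]; push_cast; ring
        rw [e1, Real.mul_rpow (by norm_num) hH0.le] at h5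
        refine le_trans ?_ (h5.trans (le_max_right _ _))
        rw [← mul_assoc]
        exact mul_le_mul ((min_le_left _ _).trans (min_le_right _ _)) hpow2 hp.le (by positivity)
    · refine le_trans ?_ (case3 h3)
      exact mul_le_mul ((min_le_left _ _).trans (min_le_left _ _)) hpow1 hp.le hc1.le
  · refine le_trans ?_ (case3 h3)
    exact mul_le_mul_of_nonneg_right ((min_le_left _ _).trans (min_le_left _ _))
      (Real.rpow_nonneg hH0.le _)

/-- linear independence -/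
theorem indep (ε : ℝ) (hε : ε = 1 ∨ ε = -1) :
    LinearIndependent ℚ ![((1 : ℝ), (0 : ℝ)), ((0 : ℝ), (1 : ℝ)), (Real.pi ^ 2, 18 * ζ3),
      (8 * G, Real.pi ^ 3 + 12 * ε * ζ3)] := by
  rw [← LinearIndependent.iff_fractionRing ℤ ℚ, Fintype.linearIndependent_iff]
  intro g hg
  obtain ⟨c, κ, hc, hκ, h⟩ := measure ε hε
  by_contra hcon
  have hg0 : g ≠ 0 := by
    intro h0
    apply hcon
    intro i
    rw [h0]
    rfl
  have h1 := (h g hg0 (max 1 (max |(g 2 : ℝ)| |(g 3 : ℝ)|)) (le_max_left _ _)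
    ((le_max_left _ _).trans (le_max_right _ _)) ((le_max_right _ _).trans (le_max_right _ _))).1
  rw [Fin.sum_univ_four] at hg
  have e1 := congrArg Prod.fst hg
  have e2 := congrArg Prod.snd hg
  simp only [Fin.isValue, Matrix.cons_val_zero, Matrix.cons_val_one, Matrix.cons_val, Prod.smul_mk,
    zsmul_eq_mul, mul_one, mul_zero, Prod.mk_add_mk, Prod.fst_zero, Prod.snd_zero, add_zero,
    zero_add] at e1 e2
  rw [e1, e2, abs_zero, max_self] at h1
  have h2 : 0 < c * (max 1 (max |(g 2 : ℝ)| |(g 3 : ℝ)|)) ^ (-κ) :=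
    mul_pos hc (Real.rpow_pos_of_pos (lt_max_of_lt_left one_pos) _)
  linarith

/-- one of the two numbers is irrational -/
theorem alt (ε : ℝ) (hε : ε = 1 ∨ ε = -1) (r : ℚ) : Irrational (8 * G + (r : ℝ) * Real.pi ^ 2) ∨
    Irrational (Real.pi ^ 3 + (18 * (r : ℝ) + 12 * ε) * ζ3) := by
  by_contra hcon
  rw [not_or] at hcon
  obtain ⟨h1, h2⟩ := hcon
  unfold Irrational at h1 h2
  push Not at h1 h2
  obtain ⟨a, ha⟩ := h1
  obtain ⟨b, hb⟩ := h2
  have h3 := indep ε hε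
  rw [Fintype.linearIndependent_iff] at h3
  have h4 := h3 ![-a, -b, r, 1] (by
    rw [Fin.sum_univ_four]
    ext
    · simp only [Fin.isValue, Matrix.cons_val_zero, Matrix.cons_val_one, Matrix.cons_val, Prod.smul_mk,
        Prod.mk_add_mk, Prod.fst_zero, Rat.smul_def]
      push_cast
      linear_combination (-1 : ℝ) * ha
    · simp only [Fin.isValue, Matrix.cons_val_zero, Matrix.cons_val_one, Matrix.cons_val, Prod.smul_mk,
        Prod.mk_add_mk, Prod.snd_zero, Rat.smul_def]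
      push_cast
      linear_combination (-1 : ℝ) * hb) 3
  simp at h4

theorem result :
    (∀ ε : ℝ, (ε = 1 ∨ ε = -1) →
      LinearIndependent ℚ ![((1 : ℝ), (0 : ℝ)), ((0 : ℝ), (1 : ℝ)), (Real.pi ^ 2, 18 * ζ3),
        (8 * G, Real.pi ^ 3 + 12 * ε * ζ3)] ∧
      ∃ c κ : ℝ, 0 < c ∧ 0 < κ ∧ ∀ x : Fin 4 → ℤ, x ≠ 0 → ∀ H : ℝ, 1 ≤ H →
        |(x 2 : ℝ)| ≤ H → |(x 3 : ℝ)| ≤ H →
        c * H ^ (-κ) ≤ max |(x 0 : ℝ) + x 2 * Real.pi ^ 2 + x 3 * (8 * G)|
          |(x 1 : ℝ) + x 2 * (18 * ζ3) + x 3 * (Real.pi ^ 3 + 12 * ε * ζ3)| ∧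
        (x 3 ≠ 0 → c * H ^ (-(1999 : ℝ)) ≤ max |(x 0 : ℝ) + x 2 * Real.pi ^ 2 + x 3 * (8 * G)|
          |(x 1 : ℝ) + x 2 * (18 * ζ3) + x 3 * (Real.pi ^ 3 + 12 * ε * ζ3)|)) ∧
    ∀ r : ℚ, Irrational (8 * G + (r : ℝ) * Real.pi ^ 2) ∨
      (Irrational (Real.pi ^ 3 + (18 * (r : ℝ) + 12) * ζ3) ∧
        Irrational (Real.pi ^ 3 + (18 * (r : ℝ) - 12) * ζ3)) := by
  refine ⟨fun ε hε => ⟨indep ε hε, measure ε hε⟩, fun r => ?_⟩
  rcases alt 1 (Or.inl rfl) r with h1 | h1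
  · exact Or.inl h1
  · rcases alt (-1) (Or.inr rfl) r with h2 | h2
    · exact Or.inl h2
    · refine Or.inr ⟨?_, ?_⟩
      · rwa [mul_one] at h1
      · rwa [show 18 * (r : ℝ) + 12 * -1 = 18 * (r : ℝ) - 12 by ring] at h2

end Pool.Agent.Results.MP_1eadae_ag.CatalanZetaThree
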